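import Pool.Agent.K4H53.AP.Fin

/-!
# Beilinson's conjecture for triple products with abelian `V_gh` of 2-power order

`f` is the newform of an elliptic curve `E` over `ℚ` with the minimal equation `W`, of any conductor; so the part
of `CH¹(X_1(N)/H)_0 ⊗ L` attached to `f` is `E(H) ⊗ L`.  We assume the conditions `Good` (some `a_q` is odd, the
Manin constant is odd) and `OddOverQ`: `Δ < 0`, and the formula of Birch and Swinnerton-Dyer over `ℚ` modulo
two, with both sides odd.  For `E = X_0(11)` all this is proved.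

`g` and `h` are eigenforms of weight one; their representations `ρ_g`, `ρ_h` factor through the Galois group of
a number field `H`, and complex conjugation has the determinant `-1` in both.  We assume that the image of
`V_gh = ρ_g ⊗ ρ_h` is abelian of exponent a power of two (`IsPair`), and that at the primes `p` where `V_gh`
ramifies `E` has good reduction, `a_p` is odd if `p` is odd, and if `p = 2` then `a_2` is even and the
conductor of `V_gh` is not divisible by `8` in the sense that `V_gh` is trivial on the Galois group of `H` over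
`ℚ(ζ_(4m))` for an odd `m`.  The field of `V_gh` can be any such field; the orders of the characters in `V_gh` are
arbitrary powers of two.  There are two types of such pairs, up to twists of `g` by `χ` and of `h` by
`χ⁻¹`, `χ` any Dirichlet character:

* `g` and `h` are Eisenstein series, `V_gh` is the sum of the four products of their characters;
* `g` and `h` are cusp forms with the same projective image `V_4`, `h` is a twist of the dual of `g`; they are
  theta series of three quadratic fields at the same time.  The images of `ρ_g`, `ρ_h` are not abelian.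

The theorem: `L(f ⊗ g ⊗ h, s)`, the Euler product of `V_f ⊗ V_gh` with the factors at all the primes, is
continued to an entire function, and Beilinson's equality holds, with both sides equal to zero:

`ord_{s = 1} L(f ⊗ g ⊗ h, s) = dim Hom(V_gh, E(H) ⊗ ℂ) = 0`.

Moreover the algebraic part of the central value is, up to an explicit power of two, a unit at all the
places above two: `2^r L(f ⊗ g ⊗ h, 1) / Ω²` has the valuation one at every valuation of `ℂ` above two, where
`Ω = 2 ∫_{E(ℂ)} du dv` for `ω = du + i dv`, twice the area of `ℂ` modulo the periods (so `Ω²` is the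
period of the triple product in the unbalanced region, it is `⟨f, f⟩²` up to a power of `π` and an algebraic
factor), `r ≤ 4`, and `r = 0` if `V_gh` is unramified at two.

The proof.  The restriction of `V_gh` is diagonalised by Dirichlet characters `χ_i` of 2-power order.  The Euler
factors at all the primes are computed with the averages of the `χ_i` over the Frobenius automorphisms of `H`,
which are the values of the primitive characters (inertia groups of `ℚ(ζ_n)`, lifted to `H`).  The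
values `L(E, χ_i, 1)` are units at two up to periods and Gauss sums, by the congruence between the sums of
the modular symbols for `χ_i` and for `1`; the Gauss sums of conductor `4q` are `2` times a unit.  On the algebraic side
`E` has rank zero over the field `K` of `V_gh`, by the comparison of the Selmer groups over `ℚ` and over
`K` (`MP_1a91b9_nt.FormulaModTwoAbelian`).

The parts `Avg`, `Red`, `Trc` of the proof were written by helper45, helper71, helper85.
-/

set_option autoImplicit false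

open NumberField IsDedekindDomain WeierstrassCurve MeasureTheory
open UpperHalfPlane MatrixGroups CongruenceSubgroup

open scoped Classical TensorProduct Kronecker

namespace Pool.Agent.Results.MP_60ff09_nt.AbelianTwoPairs

open Pool.Agent.K4H53.BSX.D

/-- The equation `y² + y = x³ - x² - 10 x - 20` of the modular curve `X_0(11)`. -/
def X11 : WeierstrassCurve ℤ := ⟨0, -1, 1, -10, -20⟩

/-- The conditions on the curve: the equation `W` is minimal at all primes; there is a newform `f` of `W`,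
of a level `N` (with the same prime divisors as `Δ`; `p²` divides `N` exactly if `p` divides `c₄`, that is
if the reduction is additive), such that the periods of `2 π i f(z) dz` on `Γ₀(N)`, times an odd integer
`c`, are in the period lattice of the differential `dx / (2 y + a₁ x + a₃)` of `W`, which is the lattice
with `g₂ = c₄ / 12` and `g₃ = c₆ / 216` (the Manin constant is odd); and `a_q` is odd for some prime `q`
that does not divide `2 Δ`. -/
structure Good (W : WeierstrassCurve ℤ) : Prop where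
  ne : W.Δ ≠ 0
  min : ∀ p : HeightOneSpectrum (𝓞 ℚ), MinimalAt W p
  form : ∃ N : ℕ, N ≠ 0 ∧ ∃ f : CuspForm (Gamma0 N : Subgroup (GL (Fin 2) ℝ)) 2, IsNewform W N f ∧
    (∀ p : ℕ, p.Prime → p ∣ N → (p ^ 2 ∣ N ↔ (p : ℤ) ∣ W.c₄)) ∧
    ∃ Λ : PeriodPair, Λ.g₂ = (W.c₄ : ℂ) / 12 ∧ Λ.g₃ = (W.c₆ : ℂ) / 216 ∧
      ∃ c : ℤ, Odd c ∧ ∀ γ ∈ Gamma0 N, ∀ z : ℍ,
        (c : ℂ) * (prim f ((γ • z : ℍ) : ℂ) - prim f (z : ℂ)) ∈ Λ.lattice
  odd : ∃ q : ℕ, q.Prime ∧ ¬ (q : ℤ) ∣ 2 * W.Δ ∧ Odd ((q : ℤ) - pts W (ZMod q))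

/-- The discriminant is negative, and the formula of Birch and Swinnerton-Dyer over `ℚ` modulo two holds with
both sides odd: `L(E, 1) #E(ℚ)_tors² / Ω` is a quotient of odd integers, the rank is zero, `Ш(E/ℚ)[2^∞] = 0` and
the Tamagawa numbers are odd. -/
structure OddOverQ (W : WeierstrassCurve ℤ) : Prop where
  neg : W.Δ < 0
  bsd : BSDModTwo ℚ W
  rank : rank ℚ W = 0
  sha : Sha2 ℚ W = {0}
  tam : Odd (Tam ℚ W)

section rep

variable {H : Type} [Field H] [NumberField H]

/-- The Frobenius automorphisms at the place `v`: the automorphisms `σ` of `H` with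
`σ x = x ^ p` modulo `v` for all the integers `x` of `H`, where `p` is the prime number below `v`.
They are a coset of the inertia group of `v`. -/
def FrobSet (v : HeightOneSpectrum (𝓞 H)) : Set (H ≃ₐ[ℚ] H) :=
  {σ | IsArithFrobAt ℤ σ v.asIdeal}

/-- The Kronecker product of matrices, as a homomorphism of monoids. -/
noncomputable def kron : Matrix (Fin 2) (Fin 2) ℂ × Matrix (Fin 2) (Fin 2) ℂ →*
    Matrix (Fin 2 × Fin 2) (Fin 2 × Fin 2) ℂ where
  toFun A := A.1 ⊗ₖ A.2
  map_one' := Matrix.one_kronecker_one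
  map_mul' A B := Matrix.mul_kronecker_mul A.1 B.1 A.2 B.2

/-- `ρ_g ⊗ ρ_h`, by the Kronecker products of matrices. -/
noncomputable def tensor (ρ ρ' : (H ≃ₐ[ℚ] H) →* GL (Fin 2) ℂ) :
    (H ≃ₐ[ℚ] H) →* GL (Fin 2 × Fin 2) ℂ :=
  (Units.map kron).comp (MulEquiv.prodUnits.symm.toMonoidHom.comp (ρ.prod ρ'))

variable {κ : Type} [Fintype κ] [DecidableEq κ] (ρ : (H ≃ₐ[ℚ] H) →* GL κ ℂ)

/-- The action of the Frobenius automorphism at `v` on the vectors of `V = ℂ^κ` fixed by the inertia
group of `v`, extended by zero: the average of the matrices `ρ(σ)` over all the Frobenius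
automorphisms `σ` at `v`. -/
noncomputable def frob (v : HeightOneSpectrum (𝓞 H)) : Matrix κ κ ℂ :=
  (Nat.card (FrobSet v) : ℂ)⁻¹ • ∑ᶠ σ : FrobSet v, (ρ σ.1 : Matrix κ κ ℂ)

/-- The representation is ramified at `p`: the Frobenius automorphisms at a place above `p` do not all act
in the same way (they differ by the elements of the inertia group). -/
def Ramified (p : ℕ) : Prop :=
  ∃ v : HeightOneSpectrum (𝓞 H), (p : 𝓞 H) ∈ v.asIdeal ∧
    ∃ σ ∈ FrobSet v, ∃ σ' ∈ FrobSet v, ρ σ ≠ ρ σ'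

/-- The Euler factor of `L(V_f ⊗ V, s)` at the prime number `p`, where `v` is a place of `H` above `p`:
`det (1 - a_p p^(-s) Φ + p^(1 - 2 s) Φ²)⁻¹` for `Φ = frob ρ v`, without the last term if `p` divides the
discriminant of `E` (`V` is unramified at these primes in the theorem); `a_p = p - pts` as `pts` does not
count the point at infinity. -/
noncomputable def euler (W : WeierstrassCurve ℤ) (v : HeightOneSpectrum (𝓞 H)) (s : ℂ) (p : ℕ) : ℂ :=
  (1 - ((((p : ℤ) - pts W (ZMod p) : ℤ) : ℂ) * (p : ℂ) ^ (-s)) • frob ρ v +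
    (if (p : ℤ) ∣ W.Δ then 0 else (p : ℂ) ^ (1 - 2 * s)) • frob ρ v ^ 2).det⁻¹

/-- `L` is an entire function, and for `Re s > 3/2` it is `L(V_f ⊗ V, s)`, the product of the
Euler factors at all the prime numbers (for any choice of the places above them). -/
def IsLFunction (W : WeierstrassCurve ℤ) (L : ℂ → ℂ) : Prop :=
  Differentiable ℂ L ∧
    ∀ V : Nat.Primes → HeightOneSpectrum (𝓞 H),
      (∀ p : Nat.Primes, ((p : ℕ) : 𝓞 H) ∈ (V p).asIdeal) → ∀ s : ℂ, 3 / 2 < s.re →
      HasProd (fun p : Nat.Primes => euler ρ W (V p) s p) (L s)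

/-- `τ` is a complex conjugation: the restriction of the complex conjugation for an embedding of `H` in `ℂ`. -/
def IsConj (τ : H ≃ₐ[ℚ] H) : Prop := ∃ e : H →+* ℂ, ∀ x : H, e (τ x) = (starRingEnd ℂ) (e x)

variable (H) in
/-- The group `E(H)`. -/
abbrev Pts (W : WeierstrassCurve ℤ) : Type :=
  ((W.map (Int.castRingHom ℚ)).map (algebraMap ℚ H)).toAffine.Point

/-- The action of the automorphism `σ` on `E(H)`. -/
noncomputable def act (W : WeierstrassCurve ℤ) (σ : H ≃ₐ[ℚ] H) : Pts H W →+ Pts H W :=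
  Affine.Point.map (W' := (W.map (Int.castRingHom ℚ)).toAffine) (σ : H →ₐ[ℚ] H)

end rep

/-- The conditions on the pair `(g, h)`, for `V_gh = ρ_g ⊗ ρ_h`: -/
structure IsPair (W : WeierstrassCurve ℤ) {H : Type} [Field H] [NumberField H]
    (ρg ρh : (H ≃ₐ[ℚ] H) →* GL (Fin 2) ℂ) : Prop where
  /-- `H` contains the roots of unity of order `4 m`, `m` odd, and `V_gh` is trivial on `Gal(H/ℚ(ζ_(4m)))`; by
  Kronecker and Weber this says, up to an enlargement of `H` (the two sides of the conjecture do not depend on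
  `H`), that the image of `V_gh` is abelian and that `8` does not divide the conductors of its characters -/
  abelian : ∃ m : ℕ, Odd m ∧ ∃ ζ : H, IsPrimitiveRoot ζ (4 * m) ∧
    ∀ σ : H ≃ₐ[ℚ] H, σ ζ = ζ → tensor ρg ρh σ = 1
  /-- the exponent of the image is a power of two -/
  order : ∃ k : ℕ, ∀ σ : H ≃ₐ[ℚ] H, tensor ρg ρh σ ^ 2 ^ k = 1
  /-- `ρ_g` and `ρ_h` are odd -/
  odd : ∀ τ : H ≃ₐ[ℚ] H, IsConj τ →
    (ρg τ : Matrix (Fin 2) (Fin 2) ℂ).det = -1 ∧ (ρh τ : Matrix (Fin 2) (Fin 2) ℂ).det = -1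
  /-- the condition at the primes where `V_gh` is ramified -/
  ramified : ∀ p : ℕ, p.Prime → Ramified (tensor ρg ρh) p → ¬ (p : ℤ) ∣ W.Δ ∧
    (p ≠ 2 → Odd ((p : ℤ) - pts W (ZMod p))) ∧ (p = 2 → Even ((p : ℤ) - pts W (ZMod p)))

/-- For a representation `ρ` of the group `G` on `V = ℂ^κ` and an action `α` of `G` on the abelian group
`A`: the linear map `φ : V → A ⊗ ℂ` commutes with `G`. -/
def IsHom {G κ A : Type} [Group G] [Fintype κ] [DecidableEq κ] [AddCommGroup A]
    (ρ : G →* GL κ ℂ) (α : G → A →+ A) (φ : (κ → ℂ) →ₗ[ℂ] (ℂ ⊗[ℤ] A)) : Prop :=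
  ∀ (σ : G) (v : κ → ℂ),
    φ ((ρ σ : Matrix κ κ ℂ).mulVec v) = (α σ).toIntLinearMap.baseChange ℂ (φ v)

section hom

variable {G κ A : Type} [Group G] [Fintype κ] [DecidableEq κ] [AddCommGroup A]
  (ρ : G →* GL κ ℂ) (α : G → A →+ A)

theorem IsHom.zero : IsHom ρ α 0 := fun σ v => by simp

variable {ρ α} in
theorem IsHom.add {φ ψ : (κ → ℂ) →ₗ[ℂ] (ℂ ⊗[ℤ] A)} (h : IsHom ρ α φ) (h' : IsHom ρ α ψ) :
    IsHom ρ α (φ + ψ) := fun σ v => by
  rw [LinearMap.add_apply, LinearMap.add_apply, h σ v, h' σ v, map_add]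

variable {ρ α} in
theorem IsHom.smul (a : ℂ) {φ : (κ → ℂ) →ₗ[ℂ] (ℂ ⊗[ℤ] A)} (h : IsHom ρ α φ) :
    IsHom ρ α (a • φ) := fun σ v => by
  rw [LinearMap.smul_apply, LinearMap.smul_apply, h σ v, map_smul]

/-- `Hom_G(V, A ⊗ ℂ)`, the space of the linear maps which commute with the action of `G`. -/
noncomputable def homs : Submodule ℂ ((κ → ℂ) →ₗ[ℂ] (ℂ ⊗[ℤ] A)) where
  carrier := {φ | IsHom ρ α φ}
  zero_mem' := IsHom.zero ρ α
  add_mem' := IsHom.add
  smul_mem' := IsHom.smul

/-- The dimension of `Hom_G(V, A ⊗ ℂ)`. -/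
noncomputable def dimHom : ℕ := Module.finrank ℂ (homs ρ α)

theorem dimHom_zero (h : ∀ φ : (κ → ℂ) →ₗ[ℂ] (ℂ ⊗[ℤ] A), IsHom ρ α φ → φ = 0) : dimHom ρ α = 0 := by
  unfold dimHom
  have h1 : homs ρ α = ⊥ := by
    rw [eq_bot_iff]
    intro φ hφ
    exact (Submodule.mem_bot ℂ).2 (h φ hφ)
  rw [h1]
  exact finrank_bot ℂ _

end hom

/-- The conclusion for the pair `(g, h)`: `L(f ⊗ g ⊗ h, s)` is entire, Beilinson's equality holds with both sides
zero, and the algebraic part of the central value is a unit above two, up to the factor `2^r`. -/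
def Conclusion (W : WeierstrassCurve ℤ) {H : Type} [Field H] [NumberField H]
    (ρg ρh : (H ≃ₐ[ℚ] H) →* GL (Fin 2) ℂ) : Prop :=
  ∃ L : ℂ → ℂ, IsLFunction (tensor ρg ρh) W L ∧
    analyticOrderAt L 1 = dimHom (tensor ρg ρh) (act W) ∧ analyticOrderAt L 1 = 0 ∧
    0 < complexPeriod W ∧ ∃ r : ℕ, r ≤ 4 ∧ (¬ Ramified (tensor ρg ρh) 2 → r = 0) ∧
      ∀ (Γ : Type) [LinearOrderedCommGroupWithZero Γ] (w : Valuation ℂ Γ), w 2 < 1 →
        w (2 ^ r * L 1 / (complexPeriod W : ℂ) ^ 2) = 1

/-- complex conjugations exist -/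
theorem exists_conj (H : Type) [Field H] [NumberField H] [IsGalois ℚ H] :
    ∃ τ : H ≃ₐ[ℚ] H, IsConj τ := by
  obtain ⟨e⟩ : Nonempty (H →+* ℂ) := inferInstance
  let _ : Algebra H ℂ := e.toAlgebra
  have : IsScalarTower ℚ H ℂ := IsScalarTower.of_algebraMap_eq fun x => by simp
  let c : ℂ ≃ₐ[ℚ] ℂ := (Complex.conjAe).restrictScalars ℚ
  refine ⟨c.restrictNormal H, e, fun x => ?_⟩
  exact AlgEquiv.restrictNormal_commutes c H x

section conj

variable {H : Type} [Field H] [NumberField H] {τ : H ≃ₐ[ℚ] H}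

theorem conj_root (hτ : IsConj τ) {n : ℕ} {ζ : H} (hζ : IsPrimitiveRoot ζ n) (hn : 0 < n) :
    τ ζ = ζ⁻¹ := by
  obtain ⟨e, he⟩ := hτ
  apply e.injective
  rw [he, map_inv₀]
  have h1 : ‖e ζ‖ = 1 := by
    refine Complex.norm_eq_one_of_pow_eq_one (n := n) ?_ hn.ne'
    rw [← map_pow, hζ.pow_eq_one, map_one]
  exact (Complex.inv_eq_conj h1).symm

theorem conj_sq (hτ : IsConj τ) : τ * τ = 1 := by
  obtain ⟨e, he⟩ := hτ
  ext x
  apply e.injective
  show e (τ (τ x)) = e x
  rw [he, he, Complex.conj_conj]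

end conj

/-- there is a valuation of the complex numbers above two -/
theorem exists_val : ∃ (Γ : Type) (_ : LinearOrderedCommGroupWithZero Γ) (w : Valuation ℂ Γ),
    w 2 < 1 := by
  let A : Subring ℂ := (Int.castRingHom ℂ).range
  let two : A := ⟨2, 2, by simp⟩
  have hI : Ideal.span {two} ≠ ⊤ := by
    intro h
    rw [Ideal.span_singleton_eq_top] at h
    obtain ⟨⟨_, z, rfl⟩, h1⟩ := isUnit_iff_exists_inv.1 h
    have h2 : (2 : ℂ) * (z : ℂ) = 1 := by
      have := congrArg Subtype.val h1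
      simpa using this
    have h3 : (2 : ℤ) * z = 1 := by exact_mod_cast h2
    omega
  obtain ⟨B, -, hB⟩ := Ideal.image_subset_nonunits_valuationSubring _ hI
  refine ⟨B.ValueGroup, inferInstance, B.valuation, ?_⟩
  have h1 : (2 : ℂ) ∈ B.nonunits := hB ⟨two, Ideal.subset_span rfl, rfl⟩
  exact (ValuationSubring.mem_nonunits_iff B).1 h1

theorem conclusion {W : WeierstrassCurve ℤ} (hW : Good W) (hQ : OddOverQ W) {H : Type} [Field H]
    [NumberField H] [IsGalois ℚ H] {ρg ρh : (H ≃ₐ[ℚ] H) →* GL (Fin 2) ℂ} (hp : IsPair W ρg ρh) :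
    Conclusion W ρg ρh := by
  obtain ⟨N, hN, f, hf, hN2, Λ, hg₂, hg₃, hman⟩ := hW.form
  obtain ⟨q, hq, hqΔ, hqo⟩ := hW.odd
  have : NeZero N := ⟨hN⟩
  obtain ⟨m, hm, ζ, hζ, hab⟩ := hp.abelian
  obtain ⟨k, hk⟩ := hp.order
  have hm0 : 0 < m := hm.pos
  have : NeZero (4 * m) := ⟨by omega⟩
  set ρ := tensor ρg ρh with hρ
  have hunr : ∀ p, Pool.Agent.K4H53.AP.Unr ρ p ↔ ¬ Ramified ρ p := by
    intro p
    unfold Ramified Pool.Agent.K4H53.AP.Unr
    constructor
    · rintro h ⟨v, hv, σ, hσ, σ', hσ', hne⟩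
      exact hne (h v hv σ hσ σ' hσ')
    · intro h v hv σ hσ σ' hσ'
      by_contra hne
      exact h ⟨v, hv, σ, hσ, σ', hσ', hne⟩
  obtain ⟨hrp, hcp, hhom, L, hL1, hL2, a, b, r, hab', hr, hr2, htr, hval⟩ :=
    Pool.Agent.K4H53.AP.main Pool.Agent.K4H53.AP.s_red Pool.Agent.K4H53.AP.s_avg
      Pool.Agent.K4H53.AP.s_trace rfl hm hζ ρ hab k hk
      (fun p hp' hu => hp.ramified p hp' (by
        by_contra h
        exact hu ((hunr p).2 h))) hQ.neg hW.min f hf hN2 Λ hg₂ hg₃ hman q hq hqΔ hqo hQ.tam hQ.rank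
      hQ.sha (Pool.Agent.K4H53.AP.odd_value hf hW.ne q hq hqΔ hqo hQ.bsd hQ.rank hQ.sha hQ.tam)
  -- the number of the even and of the odd characters
  have hcard : Fintype.card (Fin 2 × Fin 2) = 4 := by simp
  rw [hcard] at hab' hr
  obtain ⟨τ, hτ⟩ := exists_conj H
  have hζ' := conj_root hτ hζ (by omega)
  have h1 := htr τ hζ'
  obtain ⟨d1, d2⟩ := hp.odd τ hτ
  have hττ := conj_sq hτ
  have hinv : ∀ ρ' : (H ≃ₐ[ℚ] H) →* GL (Fin 2) ℂ,
      (ρ' τ : Matrix (Fin 2) (Fin 2) ℂ) * (ρ' τ : Matrix (Fin 2) (Fin 2) ℂ) = 1 := by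
    intro ρ'
    have : ρ' τ * ρ' τ = 1 := by rw [← map_mul, hττ, map_one]
    exact congrArg Units.val this
  have h2 : (ρ τ : Matrix (Fin 2 × Fin 2) (Fin 2 × Fin 2) ℂ).trace = 0 := by
    have h3 : (ρ τ : Matrix (Fin 2 × Fin 2) (Fin 2 × Fin 2) ℂ) =
        (ρg τ : Matrix (Fin 2) (Fin 2) ℂ) ⊗ₖ (ρh τ : Matrix (Fin 2) (Fin 2) ℂ) := rfl
    rw [h3, Matrix.trace_kronecker, Pool.Agent.K4H53.AP.trace_zero (hinv ρg) d1, zero_mul]
  rw [h2] at h1
  have h4 : (a : ℂ) = b := (sub_eq_zero.1 h1.symm)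
  have h5 : a = b := by exact_mod_cast h4
  obtain rfl : a = 2 := by omega
  obtain rfl : b = 2 := by omega
  have hL0 : L 1 ≠ 0 := by
    obtain ⟨Γ, i1, w, hw⟩ := exists_val
    intro h0
    have h6 := @hval Γ i1 w hw
    rw [h0, mul_zero, map_zero] at h6
    have h7 : (realPeriod W : ℂ) ^ 2 *
        (Complex.I * ((complexPeriod W : ℂ) / (realPeriod W : ℂ))) ^ 2 ≠ 0 := by
      have g1 : (realPeriod W : ℂ) ≠ 0 := by
        have := hrp.ne'
        exact_mod_cast this
      have g2 : (complexPeriod W : ℂ) ≠ 0 := by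
        have := hcp.ne'
        exact_mod_cast this
      exact mul_ne_zero (pow_ne_zero _ g1) (pow_ne_zero _ (mul_ne_zero Complex.I_ne_zero
        (div_ne_zero g2 g1)))
    exact (Valuation.ne_zero_iff w).2 h7 h6.symm
  have hord : analyticOrderAt L 1 = 0 :=
    (hL1.analyticAt 1).analyticOrderAt_eq_zero.2 hL0
  refine ⟨L, ⟨hL1, fun V hV s hs => hL2 V hV s hs⟩, ?_, hord, hcp, r, hr,
    fun h => hr2 ((hunr 2).2 h), fun Γ _ w hw => ?_⟩
  · rw [hord, dimHom_zero (tensor ρg ρh) (act W) hhom]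
    rfl
  · have h6 := hval Γ w hw
    have g1 : (realPeriod W : ℂ) ≠ 0 := by
      have := hrp.ne'
      exact_mod_cast this
    have g2 : (complexPeriod W : ℂ) ≠ 0 := by
      have := hcp.ne'
      exact_mod_cast this
    have h7 : (realPeriod W : ℂ) ^ 2 *
        (Complex.I * ((complexPeriod W : ℂ) / (realPeriod W : ℂ))) ^ 2 =
        -((complexPeriod W : ℂ) ^ 2) := by
      rw [mul_pow, Complex.I_sq, div_pow]
      field_simp
    rw [h7, Valuation.map_neg] at h6
    rw [map_div₀, h6]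
    exact div_self ((Valuation.ne_zero_iff w).2 (pow_ne_zero 2 g2))

/-- **Main theorem.** -/
theorem result :
    (∀ W : WeierstrassCurve ℤ, Good W → OddOverQ W → ∀ (H : Type) [Field H] [NumberField H]
      [IsGalois ℚ H] (ρg ρh : (H ≃ₐ[ℚ] H) →* GL (Fin 2) ℂ), IsPair W ρg ρh → Conclusion W ρg ρh) ∧
    Good X11 ∧ OddOverQ X11 := by
  obtain ⟨hQ, hTQ, hrk, hsha⟩ := Pool.Agent.K4H53.BSX.Q11.bsd_Q
  obtain ⟨Λ, h2, h3, hman⟩ := Pool.Agent.K4H53.BSX.Q11.man11
  refine ⟨fun W hW hQ H _ _ _ ρg ρh hp => conclusion hW hQ hp,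
    ⟨Pool.Agent.K4H53.BSX.Q11.disc_ne, Pool.Agent.K4H53.BSX.Q11.min11, ⟨11, by norm_num,
    Pool.Agent.W97.TW.f11, Pool.Agent.K4H53.BSX.Q11.newform11, ?_, Λ, h2, h3, hman⟩, ⟨3, by norm_num,
    Pool.Agent.K4H53.BSX.Q11.not3, Pool.Agent.K4H53.BSX.a3_odd⟩⟩,
    ⟨Pool.Agent.K4H53.BSX.Q11.disc_lt, hQ, hrk, hsha, hTQ⟩⟩
  intro p hp hp11
  obtain rfl : p = 11 := (Nat.prime_dvd_prime_iff_eq hp (by norm_num)).1 hp11
  have h4 : X11.c₄ = 496 := by decide
  rw [h4]
  constructor
  · intro h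
    exact absurd h (by norm_num)
  · intro h
    exact absurd h (by norm_num)

end Pool.Agent.Results.MP_60ff09_nt.AbelianTwoPairs
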