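import Pool.Agent.K4H15.BT.Fin

/-!
# Beilinson's conjecture for the triple products of the form of level 27 and pairs of theta series

`f` is the newform of weight two and level `27`; it is the form of the elliptic curve
`E : y² + y = x³`, and the part of `CH¹(X_1(27)/H)_0 ⊗ L` attached to `f` is `E(H) ⊗ L` (the curve is
isogenous to `X_0(27)`, and `f` is the only form of this level and weight with trivial character).

`F` is the field of third roots of unity, and `K` is a Galois extension of `ℚ` which contains `F`, of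
degree `2 ^ n` over `F`, with an Artin map of modulus `m` over `F`, where `2` is not a cube modulo any
prime number that divides `m`.  By class field theory these are all the fields `K` of 2-power degree
which are Galois over `ℚ`, abelian over `F` and unramified over `F` outside of the primes `l = 1` modulo
`3` for which `2` is not a cube modulo `l`.

`g` and `h` are any eigenforms of weight one whose Artin representations `ρ_g`, `ρ_h` are trivial on the
Galois group of `K`.  These are, by Hecke, the theta series `θ_ψ = ∑ ψ(𝔞) q^(N 𝔞)` of the characters `ψ` of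
2-power order of the ray class groups of `F` of admissible modulus (the irreducible case, nonabelian and
in general with images of unbounded order), and Eisenstein series.  `V_gh = ρ_g ⊗ ρ_h`.

The theorem: the Euler product `L(f ⊗ g ⊗ h, s)`, with the factors of `V_f ⊗ V_gh` at all the primes,
has a continuation to a meromorphic function on `ℂ` that is analytic at the centre `s = 1`, and Beilinson's
equality holds with both sides equal to zero:

`ord_{s = 1} L(f ⊗ g ⊗ h, s) = dim Hom(V_gh, E(K) ⊗ ℂ) = 0`.

(The homomorphisms are those of representations of `Gal(K/ℚ)`; they are the same for `K` and for the field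
`H` of `ρ_g ⊗ ρ_h`, as the image is invariant under `Gal(K/H)`.)  Moreover the algebraic part of the
central value is a unit at the places above `2`: for every valuation `w` of `ℂ` above `2` one has
`w(L(f ⊗ g ⊗ h, 1)) = w(Ω²)` with `Ω = 2 ∫_{E(ℂ)} |ω ∧ ω̄|`, where `Ω²` is the period of the triple
product in the unbalanced region (it is `⟨f, f⟩²` up to a power of `π` and an algebraic factor).

The proof.  The restriction of `V_gh` to the Galois group of `F` is a sum of four characters `χ_j` of
2-power order, and the Euler factors at the primes that are ramified in `K` are computed from the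
averages of these characters over the Frobenius elements; so the `L`-function is the product of the
Hecke `L`-functions of `Ψ χ_j`, `Ψ` the Hecke character of `E`, and of factors at the primes dividing `m`
which are units at `2`.  The values of the Hecke `L`-functions are units at `2` by the congruence with the
value for `χ = 1` (sums of values of an elliptic function at points of 2-power order modulo `m`).  This is
the method of the library of helper431 (starting result `EisensteinTensor` of problem `MP_dfae13_nt`, on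
representations over `ℤ`), extended here to complex representations.
-/

set_option autoImplicit false

open NumberField IsDedekindDomain WeierstrassCurve MeasureTheory

open scoped Classical TensorProduct Kronecker

namespace Pool.Agent.Results.MP_60ff09_nt.ThetaSeriesPairs

open Pool.Agent.Y696 (IsArtin)

/-- The curve `E : y² + y = x³`. -/
def curve : WeierstrassCurve ℤ := ⟨0, 0, 1, 0, 0⟩

/-- The number of the affine points `(x, y)` of `E` over the ring `R`. -/
noncomputable def pts (R : Type) [CommRing R] : ℕ :=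
  Nat.card {P : R × R // (curve.map (Int.castRingHom R)).toAffine.Equation P.1 P.2}

/-- `4 x³ + b₂ x² + 2 b₄ x + b₆ = (2 y + a₁ x + a₃)²`. -/
def cubic (W : WeierstrassCurve ℤ) {R : Type} [CommRing R] (x : R) : R :=
  4 * x ^ 3 + W.b₂ * x ^ 2 + 2 * W.b₄ * x + W.b₆

/-- `Ω = 2 ∫_{E(ℂ)} |ω ∧ ω̄|`, where `ω = dx / (2 y + 1)` and `|ω ∧ ω̄| = du dv` in a local parameter
`z = u + i v` with `dz = ω`, as an integral over `x`: two points lie over a general `x`, and `|ω ∧ ω̄|` is
the area element of the plane of `x` divided by `|cubic x|`. -/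
noncomputable def Omega : ℝ := 2 * (2 * ∫ x : ℂ, 1 / ‖cubic curve x‖)

section rep

variable {K : Type} [Field K] [NumberField K]

/-- The Frobenius automorphisms at the place `v`: the automorphisms `σ` of `K` with
`σ x = x ^ p` modulo `v` for all the integers `x` of `K`, where `p` is the prime number below `v`.
They are a coset of the inertia group of `v`. -/
def FrobSet (v : HeightOneSpectrum (𝓞 K)) : Set (K ≃ₐ[ℚ] K) :=
  {σ | IsArithFrobAt ℤ σ v.asIdeal}

/-- The Kronecker product of matrices, as a homomorphism of monoids. -/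
noncomputable def kron : Matrix (Fin 2) (Fin 2) ℂ × Matrix (Fin 2) (Fin 2) ℂ →*
    Matrix (Fin 2 × Fin 2) (Fin 2 × Fin 2) ℂ where
  toFun A := A.1 ⊗ₖ A.2
  map_one' := Matrix.one_kronecker_one
  map_mul' A B := Matrix.mul_kronecker_mul A.1 B.1 A.2 B.2

/-- `ρ_g ⊗ ρ_h`, by the Kronecker products of matrices. -/
noncomputable def tensor (ρ ρ' : (K ≃ₐ[ℚ] K) →* GL (Fin 2) ℂ) :
    (K ≃ₐ[ℚ] K) →* GL (Fin 2 × Fin 2) ℂ :=
  (Units.map kron).comp (MulEquiv.prodUnits.symm.toMonoidHom.comp (ρ.prod ρ'))

variable {κ : Type} [Fintype κ] [DecidableEq κ] (ρ : (K ≃ₐ[ℚ] K) →* GL κ ℂ)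

/-- The action of the Frobenius automorphism at `v` on the vectors of `V = ℂ^κ` fixed by the inertia
group of `v`, extended by zero: the average of the matrices `ρ(σ)` over all the Frobenius
automorphisms `σ` at `v`. -/
noncomputable def frob (v : HeightOneSpectrum (𝓞 K)) : Matrix κ κ ℂ :=
  (Nat.card (FrobSet v) : ℂ)⁻¹ • ∑ᶠ σ : FrobSet v, (ρ σ.1 : Matrix κ κ ℂ)

/-- The Euler factor of `L(V_f ⊗ V, s)` at the prime number `p`, where `v` is a place of `K` above `p`:
`det (1 - a_p p^(-s) Φ + p^(1 - 2 s) Φ²)⁻¹` for `Φ = frob ρ v`, without the last term at `p = 3`, the only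
prime divisor of the discriminant of `E` (the reduction is additive, `a_3 = 0`, the wild inertia group
at `3` acts trivially on `V` and without invariants on `V_f`, and the factor is `1`); `a_p = p - pts` as
`pts` does not count the point at infinity. -/
noncomputable def euler (v : HeightOneSpectrum (𝓞 K)) (s : ℂ) (p : ℕ) : ℂ :=
  (1 - ((((p : ℤ) - pts (ZMod p) : ℤ) : ℂ) * (p : ℂ) ^ (-s)) • frob ρ v +
    (if (p : ℤ) ∣ curve.Δ then 0 else (p : ℂ) ^ (1 - 2 * s)) • frob ρ v ^ 2).det⁻¹

variable (K) in
/-- The group `E(K)`. -/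
abbrev Pts : Type := ((curve.map (Int.castRingHom ℚ)).map (algebraMap ℚ K)).toAffine.Point

/-- `L` is a meromorphic function on `ℂ`, and for `Re s > 3/2` it is `L(V_f ⊗ V, s)`, the product of the
Euler factors at all the prime numbers (for any choice of the places above them). -/
def IsLFunction (L : ℂ → ℂ) : Prop :=
  MeromorphicOn L Set.univ ∧
    ∀ V : Nat.Primes → HeightOneSpectrum (𝓞 K),
      (∀ p : Nat.Primes, ((p : ℕ) : 𝓞 K) ∈ (V p).asIdeal) → ∀ s : ℂ, 3 / 2 < s.re →
      HasProd (fun p : Nat.Primes => euler ρ (V p) s p) (L s)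

/-- The action of the automorphism `σ` on `E(K)`. -/
noncomputable def act (σ : K ≃ₐ[ℚ] K) : Pts K →+ Pts K :=
  Affine.Point.map (W' := (curve.map (Int.castRingHom ℚ)).toAffine) (σ : K →ₐ[ℚ] K)

end rep

/-- For a representation `ρ` of the group `G` on `V = ℂ^κ` and an action `α` of `G` on the abelian group
`A`: the linear map `φ : V → A ⊗ ℂ` commutes with `G`. -/
def IsHom {G κ A : Type} [Group G] [Fintype κ] [DecidableEq κ] [AddCommGroup A]
    (ρ : G →* GL κ ℂ) (α : G → A →+ A) (φ : (κ → ℂ) →ₗ[ℂ] (ℂ ⊗[ℤ] A)) : Prop :=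
  ∀ (σ : G) (v : κ → ℂ),
    φ ((ρ σ : Matrix κ κ ℂ).mulVec v) = (α σ).toIntLinearMap.baseChange ℂ (φ v)

section hom

variable {G κ A : Type} [Group G] [Fintype κ] [DecidableEq κ] [AddCommGroup A]
  (ρ : G →* GL κ ℂ) (α : G → A →+ A)

theorem IsHom.zero : IsHom ρ α 0 := fun σ v => by simp

variable {ρ α} in
theorem IsHom.add {φ ψ : (κ → ℂ) →ₗ[ℂ] (ℂ ⊗[ℤ] A)} (h : IsHom ρ α φ) (h' : IsHom ρ α ψ) :
    IsHom ρ α (φ + ψ) := fun σ v => by
  rw [LinearMap.add_apply, LinearMap.add_apply, h σ v, h' σ v, map_add]

variable {ρ α} in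
theorem IsHom.smul (a : ℂ) {φ : (κ → ℂ) →ₗ[ℂ] (ℂ ⊗[ℤ] A)} (h : IsHom ρ α φ) :
    IsHom ρ α (a • φ) := fun σ v => by
  rw [LinearMap.smul_apply, LinearMap.smul_apply, h σ v, map_smul]

/-- `Hom_G(V, A ⊗ ℂ)`, the space of the linear maps which commute with the action of `G`. -/
noncomputable def homs : Submodule ℂ ((κ → ℂ) →ₗ[ℂ] (ℂ ⊗[ℤ] A)) where
  carrier := {φ | IsHom ρ α φ}
  zero_mem' := IsHom.zero ρ α
  add_mem' := IsHom.add
  smul_mem' := IsHom.smul

/-- The dimension of `Hom_G(V, A ⊗ ℂ)`. -/
noncomputable def dimHom : ℕ := Module.finrank ℂ (homs ρ α)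

theorem homs_zero [Finite A] : homs ρ α = ⊥ := by
  have h1 : ∀ x : ℂ ⊗[ℤ] A, x = 0 := by
    intro x
    induction x using TensorProduct.induction_on with
    | zero => rfl
    | tmul a P =>
      have hN : (Nat.card A : ℂ) ≠ 0 := by
        have : 0 < Nat.card A := Nat.card_pos
        exact_mod_cast this.ne'
      have h2 : Nat.card A • P = 0 := card_nsmul_eq_zero'
      have h3 : a = (Nat.card A : ℤ) • (a * (Nat.card A : ℂ)⁻¹) := by
        rw [zsmul_eq_mul]
        push_cast
        field_simp
      rw [h3, TensorProduct.smul_tmul, natCast_zsmul, h2, TensorProduct.tmul_zero]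
    | add x y hx hy => rw [hx, hy, add_zero]
  rw [eq_bot_iff]
  intro φ _
  rw [Submodule.mem_bot]
  exact LinearMap.ext fun v => h1 _

theorem dimHom_zero [Finite A] : dimHom ρ α = 0 := by
  unfold dimHom
  rw [homs_zero]
  exact finrank_bot ℂ _

end hom

/-- **Beilinson's conjecture for `(f, g, h)`, with both sides zero.**  Let `F` be the field of third roots
of unity and let `K ⊇ F` be a Galois extension of `ℚ`, of degree `2 ^ n` over `F`, with an Artin map `art`
over `F` of modulus `m`, where `2` is not a cube modulo any prime number that divides `m`.  Let `ρ_g` and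
`ρ_h` be any two-dimensional representations of the Galois group of `K / ℚ` (for instance those of two
eigenforms `g`, `h` of weight one with `χ_g χ_h = 1`).  Then `L(f ⊗ g ⊗ h, s)` is continued to a meromorphic
function on `ℂ`, analytic at `1`, its order at `s = 1` is the dimension of `Hom(V_gh, E(K) ⊗ ℂ)` and both
are zero, and `L(f ⊗ g ⊗ h, 1) / Ω²` is a unit at every valuation of the field of complex numbers
above `2`. -/
theorem result (F K : Type) [Field F] [NumberField F] [IsCyclotomicExtension {3} ℚ F] [Field K]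
    [NumberField K] [Algebra F K] [IsGalois ℚ K] (n : ℕ) (hn : Module.finrank F K = 2 ^ n)
    (m : ℕ) (hm : ∀ p : ℕ, p.Prime → p ∣ m → ∀ x : ZMod p, x ^ 3 ≠ 2)
    (art : (𝓞 F ⧸ Ideal.span {(m : 𝓞 F)})ˣ →* Gal(K/F)) (hart : IsArtin (m : 𝓞 F) art)
    (ρg ρh : (K ≃ₐ[ℚ] K) →* GL (Fin 2) ℂ) :
    ∃ L : ℂ → ℂ, IsLFunction (tensor ρg ρh) L ∧ AnalyticAt ℂ L 1 ∧
      analyticOrderAt L 1 = dimHom (tensor ρg ρh) act ∧ analyticOrderAt L 1 = 0 ∧
      0 < Omega ∧
      ∀ (Γ : Type) [LinearOrderedCommGroupWithZero Γ] (w : Valuation ℂ Γ), w 2 < 1 →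
        w (L 1 / (Omega : ℂ) ^ 2) = 1 := by
  obtain ⟨l, l1, l2, l3, l4, l5⟩ := Pool.Agent.K4H15.BT.analytic_part hn hm hart (tensor ρg ρh)
  have hfin : Finite (Pts K) := by
    have e : (curve.map (Int.castRingHom ℚ)).map (algebraMap ℚ K) = Pool.Agent.Y696.E27 K := by
      ext <;> simp [curve, Pool.Agent.Y696.E27]
    unfold Pts
    rw [e]
    exact Pool.Agent.K4H15.BT.fin_points hn hm hart
  obtain ⟨h5, h6⟩ := Pool.Agent.K4H15.BT.unit_part (l := l) (k := 2)
    (by simpa using l5) (Cp := Omega) rfl
  have h7 := dimHom_zero (tensor ρg ρh) (act (K := K))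
  have h8 : analyticOrderAt l 1 = 0 := analyticOrderAt_eq_zero.2 (Or.inr l4)
  refine ⟨l, ⟨l1, fun V hV s hs => l2 V hV s hs⟩, l3, ?_, h8, h5, fun Γ _ w hw => h6 Γ w hw⟩
  rw [h8, h7]
  rfl

end Pool.Agent.Results.MP_60ff09_nt.ThetaSeriesPairs
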