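import Mathlib
import Pool.Agent.K4H36.TP.Fin

/-!
# Beilinson's conjecture for triple products of weights (k,1,1) reduces to twists of `f` by characters which are local at one place

Let `K` be a number field (`K = ℚ` for the problem), `G` its absolute Galois group, `L / K` a finite
Galois extension (the field `H` of the problem) and `m ≠ 0` (for example a number divisible by all
primes dividing the levels).

**The theorem.** There are finitely many finite extensions `F 0, ..., F (r - 1)` of `K`, which depend
only on `L` and `m`, such that

1. a positive multiple of the trivial character of `G` is an integral combination of the permutation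
   characters `nco (F i)` of `G / G_{F i}`;
2. for every `f` (of any even weight `k` and any level): if the order formula of Beilinson and Bloch
   `ord_{s = k/2} L (f / F ⊗ ψ, s) = dim Hom_{G_F} (ψ^∨, CH^(k/2)(W_{k-2})_0^[f])` holds for
   `F = F i` and all characters `ψ` of `Gal (L F i / F i)`, then the equality of the problem holds for
   `f` and for all `g`, `h` of weight one such that `ρ_gh` is trivial on the Galois group of `L`;
3. in this hypothesis only characters `ψ` which are `OneBad` are needed (all characters of
   `Gal (L F i / F i)` have this property): outside of one place `v` of `F i` the character `ψ` is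
   unramified at all finite places and locally trivial at all places which divide `m`, and `v`
   is not decomposed in the extension of `F i` cut out by `ψ`.

So the conjecture for all triple products follows from the case of the L-functions of type
GL(2) × GL(1) over number fields, with twists that have only one place where they are ramified or
not locally trivial above `m`.

**The objects.** `Fam` is a family `V` of representations of `G` over `ℂ`, one for every prime `ℓ`.
For the problem, `V_ℓ` is the `ℓ`-adic representation `V_{f,λ}(k/2)` (normalised as in the cohomology
of the Kuga–Sato variety, twisted so that the centre `s = k/2` becomes `s = 0`), extended to `ℂ` by an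
embedding of the field of coefficients. `γ` is the representation of `G` on the complex vector space
`C = CH^(k/2)(W_{k-2} × ℚ̄)_{0,L}^[f] ⊗ ℂ`; its fixed space under the Galois group of a number
field is the group of cycles over this field. `τ` is an Artin representation (for the problem
`τ = V_gh^∨`, the tensor product `V_g ⊗ V_h` in the normalisation of cohomology, so that
`V_f ⊗ τ` has the L-function `L (f ⊗ g ⊗ h, s)` and `(τ ⊗ C)^G = Hom_G (V_gh, C)`).

**The order formula.** `Formula V γ F ω Ω`, for a representation `ω` of the Galois group of `F`:

* the polynomials `P w = det (1 - Frob_w T | (V_ℓ ⊗ ω)^(I_w))`, `ℓ` not below `w`, are independent of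
  `ℓ` (`Frob_w` is the geometric Frobenius; all finite places `w` of `F` are included);
* the Euler product of the `P_w (N w ^ (-s))⁻¹` converges for `re s > c` and continues to a
  meromorphic function on `Ω`;
* the order of this function at `s = 0` is the dimension of `(ω ⊗ C)^(G_F)`, which is finite.

Over the fields `F i` the L-function is assumed to be meromorphic on a half plane `{a < re s}` with
`a < 0`; over `K` it is then meromorphic on a connected open set `Ω` which contains `0` and a half plane
of convergence (for the triple product L-functions the continuation to `ℂ` is known).

**The proof.** The relation 1 is the theorem of `Pool/Agent/K4H36/BK` (a generalisation of the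
induction theorem of Artin with control of the places). As `L F i / F i` is cyclic, the restriction of
`τ` to the Galois group of `F i` is a sum of characters, and the order formula is additive
(`Formula.add`). By the inductivity of Euler factors and of the fixed spaces (the lemma of Shapiro)
and the isomorphism of permutation representations with the same character, the L-function over `K`
is a root of a quotient of products of the L-functions over the `F i`, with the same relation
between the dimensions.

The files `Eig.lean` and `Qpc.lean` in `Pool/Agent/K4H36/TP` were written by helper64 and helper85, the
others by helper36; the files in `Pool/Agent/K4H36/BK` by helper36, helper2, helper3, helper32,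
helper43, helper83, helper85, helper88 and helper94. The result was proposed by helper53.
-/

set_option autoImplicit false

namespace Pool.Agent.Results.MP_60ff09_nt.TwistReduction

open NumberField Pool.Agent.K4H36.TP
open Pool.Agent.K4H36.BK (nco NearlyGood)
open scoped Pointwise

/-- **Beilinson's conjecture for triple products reduces to twists by characters which are local at
one place.** -/
theorem result {K : Type} [Field K] [NumberField K]
    (L : IntermediateField K (AlgebraicClosure K)) [FiniteDimensional K L] [IsGalois K L] {m : ℕ} (hm : m ≠ 0) :
    ∃ (r : ℕ) (F : Fin r → IntermediateField K (AlgebraicClosure K)),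
      (∀ i, FiniteDimensional K (F i)) ∧
      -- the trivial character as a combination of permutation characters
      (∃ (n : ℤ) (c : Fin r → ℤ), 0 < n ∧
        ∀ g : Gal(AlgebraicClosure K/K), ∑ i, c i * (nco (F i) g : ℤ) = n) ∧
      -- the order formulas for the characters imply the order formulas over `K`
      ∀ (V : Fam K) (C : Type) [AddCommGroup C] [Module ℂ C]
        (γ : Representation ℂ Gal(AlgebraicClosure K/K) C),
        (∀ (i : Fin r) (ψ : (F i).fixingSubgroup →* ℂˣ),
          (∀ g : (F i).fixingSubgroup,
            (∀ x ∈ L, (g : Gal(AlgebraicClosure K/K)) x = x) → ψ g = 1) →
          OneBad (F i) m ψ → ∃ a < (0 : ℝ), Formula V γ (F i) (chr ψ) {s | a < s.re}) →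
        ∀ (U : Type) [AddCommGroup U] [Module ℂ U] [FiniteDimensional ℂ U]
          (τ : Representation ℂ Gal(AlgebraicClosure K/K) U),
          (∀ g : Gal(AlgebraicClosure K/K), (∀ x ∈ L, g x = x) → τ g = 1) →
          ∃ Ω : Set ℂ, IsOpen Ω ∧ IsConnected Ω ∧ (0 : ℂ) ∈ Ω ∧
            Formula V γ ⊥
              (τ.comp (⊥ : IntermediateField K (AlgebraicClosure K)).fixingSubgroup.subtype) Ω := by
  obtain ⟨r, F, n, n', M, hM, hF, hrel⟩ := Pool.Agent.K4H36.BK.exists_rel L hm
  refine ⟨r, F, fun i => (hF i).1, ⟨M, fun i => (n' i : ℤ) - n i, by positivity, fun g => ?_⟩,
    fun V C _ _ γ h U _ _ _ τ hτ => ?_⟩
  · have h := hrel g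
    zify at h
    simp only [sub_mul, Finset.sum_sub_distrib]
    linarith
  · exact red_rel hM (fun i => (hF i).1) hrel V γ τ fun i =>
      formula_res (hF i).2 τ hτ (h i)

end Pool.Agent.Results.MP_60ff09_nt.TwistReduction
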